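import Pool.Agent.N252.TV.P

/-!
# Value distribution of eigenfunctions: Gaussian limits and the gradient (MP_a52643_an)

`X` is a surface with charts of isothermal coordinates, `vol` its area measure.
-/

set_option autoImplicit false
open MeasureTheory Filter Topology Complex ProbabilityTheory
open scoped ContDiff ENNReal NNReal BoundedContinuousFunction

namespace Pool.Agent.Results.MP_a52643_an.EnergyDecorrelation

noncomputable section

/-- the Laplacian `∂x² + ∂y²` -/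
def lapl (f : ℂ → ℝ) (z : ℂ) : ℝ :=
  fderiv ℝ (fun w => fderiv ℝ f w 1) z 1 + fderiv ℝ (fun w => fderiv ℝ f w I) z I

/-- the square of the Euclidean gradient -/
def gradSq (f : ℂ → ℝ) (z : ℂ) : ℝ := fderiv ℝ f z 1 ^ 2 + fderiv ℝ f z I ^ 2

/-- A chart of isothermal coordinates on a surface `X` with area measure `vol`: `c` is a
homeomorphism of the open set `c.source ⊆ X` onto the open set `c.target ⊆ ℂ`, the metric is
`ρ |dz|²` with `ρ` smooth and positive, and `vol` is `ρ dx dy`. -/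
structure Chart (X : Type*) [TopologicalSpace X] [MeasurableSpace X] (vol : Measure X) where
  c : OpenPartialHomeomorph X ℂ
  ρ : ℂ → ℝ
  smooth : ContDiffOn ℝ ∞ ρ c.target
  pos : ∀ z ∈ c.target, 0 < ρ z
  area : ∀ A : Set X, MeasurableSet A → A ⊆ c.source →
    vol A = ∫⁻ z in c '' A, ENNReal.ofReal (ρ z)

variable {X : Type*} [TopologicalSpace X] [MeasurableSpace X] {vol : Measure X}

/-- `u` is a measurable function on `X` which is smooth in the charts and satisfies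
`Δ u = - lam u` there, where `Δ = ρ⁻¹ (∂x² + ∂y²)` -/
def IsEigenfunction (A : ℕ → Chart X vol) (lam : ℝ) (u : X → ℝ) : Prop :=
  Measurable u ∧ ∀ i, ContDiffOn ℝ ∞ (u ∘ (A i).c.symm) (A i).c.target ∧
    ∀ z ∈ (A i).c.target,
      lapl (u ∘ (A i).c.symm) z / (A i).ρ z = - lam * u ((A i).c.symm z)

/-- `E` is a measurable function on `X`, equal in the charts to `|∇u|² / lam`, where
`|∇u|² = ρ⁻¹ ((∂x u)² + (∂y u)²)` is the square of the gradient for the metric of the surface -/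
def IsEnergyDensity (A : ℕ → Chart X vol) (lam : ℝ) (u E : X → ℝ) : Prop :=
  Measurable E ∧ ∀ i, ∀ z ∈ (A i).c.target,
    E ((A i).c.symm z) = gradSq (u ∘ (A i).c.symm) z / (A i).ρ z / lam

/-- `Φ` is a finite sum of nonnegative functions, each smooth with compact support in a chart. On a
closed surface the function `Φ = 1` is such a sum, by a partition of unity. -/
def IsTestFunction (A : ℕ → Chart X vol) (Φ : X → ℝ) : Prop :=
  ∃ (s : Finset ℕ) (φ : ℕ → ℂ → ℝ), (∀ i ∈ s, ContDiff ℝ ∞ (φ i) ∧ HasCompactSupport (φ i) ∧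
    tsupport (φ i) ⊆ (A i).c.target ∧ ∀ z, 0 ≤ φ i z) ∧
    ∀ x, Φ x = ∑ i ∈ s, (A i).c.source.indicator (fun y => φ i ((A i).c y)) x

open Pool.Agent.N252.TV in
/-- **Gaussian limits and the gradient.** Let `u n` be eigenfunctions, bounded in `L²`, with
eigenvalues `lam n` tending to infinity, on a surface of finite area, let `E n = |∇ u n|² / lam n`,
let `Φ` be a test function with positive integral and `v > 0`. The following are equivalent:
(1) the laws of the `u n` under `Φ vol` converge weakly to the centred Gaussian of variance `v`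
(times the integral of `Φ`), and so do their second moments;
(2) the same, with convergence in total variation;
(3) `∫ Φ (E n - v) g(u n) dvol → 0` for every bounded continuous `g`;
(4) `∫ Φ (E n - v) g(u n) dvol → 0` uniformly over all measurable `g` with `|g| ≤ 1`. -/
theorem result {X : Type*} [TopologicalSpace X] [MeasurableSpace X] [BorelSpace X]
    (vol : Measure X) [IsFiniteMeasure vol] (A : ℕ → Chart X vol) (lam : ℕ → ℝ)
    (hlam : Tendsto lam atTop atTop) (u E : ℕ → X → ℝ)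
    (hu : ∀ n, IsEigenfunction A (lam n) (u n)) (hE : ∀ n, IsEnergyDensity A (lam n) (u n) (E n))
    (M : ℝ) (hM : ∀ n, MemLp (u n) 2 vol ∧ ∫ x, u n x ^ 2 ∂vol ≤ M) (Φ : X → ℝ)
    (hΦ : IsTestFunction A Φ) (hΦ0 : 0 < ∫ x, Φ x ∂vol) (v : ℝ≥0) (hv : v ≠ 0) :
    [(∀ g : ℝ →ᵇ ℝ, Tendsto (fun n => ∫ x, Φ x * g (u n x) ∂vol) atTop
        (𝓝 ((∫ x, Φ x ∂vol) * ∫ t, g t ∂(gaussianReal 0 v)))) ∧
      Tendsto (fun n => ∫ x, Φ x * u n x ^ 2 ∂vol) atTop (𝓝 (v * ∫ x, Φ x ∂vol)),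
    (∀ δ : ℝ, 0 < δ → ∀ᶠ n in atTop, ∀ g : ℝ → ℝ, Measurable g → (∀ x, |g x| ≤ 1) →
        |∫ x, Φ x * g (u n x) ∂vol - (∫ x, Φ x ∂vol) * ∫ t, g t ∂(gaussianReal 0 v)| ≤ δ) ∧
      Tendsto (fun n => ∫ x, Φ x * u n x ^ 2 ∂vol) atTop (𝓝 (v * ∫ x, Φ x ∂vol)),
    ∀ g : ℝ →ᵇ ℝ, Tendsto (fun n => ∫ x, Φ x * ((E n x - v) * g (u n x)) ∂vol) atTop (𝓝 0),
    ∀ δ : ℝ, 0 < δ → ∀ᶠ n in atTop, ∀ g : ℝ → ℝ, Measurable g → (∀ x, |g x| ≤ 1) →
      |∫ x, Φ x * ((E n x - v) * g (u n x)) ∂vol| ≤ δ].TFAE := by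
  obtain ⟨A', hA'⟩ : ∃ A' : ℕ → IsoChart X vol, ∀ i, (A' i).c = (A i).c ∧ (A' i).ρ = (A i).ρ :=
    ⟨fun i => ⟨(A i).c, (A i).ρ, (A i).smooth, (A i).pos, (A i).area⟩, fun i => ⟨rfl, rfl⟩⟩
  have hu2 : ∀ n, IsEigen A' (lam n) (u n) := by
    intro n
    refine ⟨(hu n).1, fun i => ?_, fun i z hz => ?_⟩
    · rw [(hA' i).1]; exact ((hu n).2 i).1
    · rw [(hA' i).1] at hz ⊢
      rw [(hA' i).2]
      have h1 := ((hu n).2 i).2 z hz
      have h2 := (A i).pos z hz
      rw [div_eq_iff h2.ne'] at h1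
      have e : Pool.Agent.N252.TV.lapl (u n ∘ (A i).c.symm) z = lapl (u n ∘ (A i).c.symm) z := rfl
      rw [e, h1]
      show - lam n * u n ((A i).c.symm z) * (A i).ρ z +
        lam n * ((A i).ρ z * u n ((A i).c.symm z)) = 0
      ring
  have hE2 : ∀ n, IsEn A' (lam n) (u n) (E n) := by
    intro n
    refine ⟨(hE n).1, fun i z hz => ?_⟩
    rw [(hA' i).1] at hz ⊢
    rw [(hA' i).2, (hE n).2 i z hz, div_div, mul_comm (lam n)]
    rfl
  obtain ⟨s, φ, hφ, hs⟩ := hΦ
  have T : IsTe A' s φ Φ := by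
    refine ⟨fun i hi => ⟨(hφ i hi).1, (hφ i hi).2.1, ?_⟩, fun i hi => (hφ i hi).2.2.2, fun x => ?_⟩
    · rw [(hA' i).1]; exact (hφ i hi).2.2.1
    · rw [hs x]
      refine Finset.sum_congr rfl fun i _ => ?_
      unfold pc
      rw [(hA' i).1]
  obtain ⟨N, M', C, h, hN, H⟩ := mk_pair T hΦ0 hlam hu2 hE2 hM
  have mg : ∀ n {g : ℝ → ℝ}, Measurable g → ∫ x, g x ∂(muL vol Φ (u n)) =
      ∫ x, Φ x * g (u n x) ∂vol := fun n g hg => den_int T.meas T.nnΦ (hu2 n).meas hg
  have msq : Measurable (fun x : ℝ => x ^ 2) := measurable_id.pow_const 2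
  have eg : ∀ n {g : ℝ → ℝ}, Measurable g →
      ∫ x, g x ∂(enL vol Φ (E (n + N)) (u (n + N))) =
      ∫ x, Φ x * (E (n + N) x * g (u (n + N) x)) ∂vol := by
    intro n g hg
    have mE : Measurable (fun x => Φ x * E (n + N) x) := T.meas.mul (hE2 _).meas
    rw [enL, den_int mE (T.nnE (hN _ (Nat.le_add_left _ _)).1 (hE2 _)) (hu2 _).meas hg]
    congr 1
    funext x
    ring
  have dg : ∀ n {g : ℝ → ℝ}, Measurable g → ∀ K : ℝ, (∀ x, |g x| ≤ K) →
      ∫ x, Φ x * ((E (n + N) x - v) * g (u (n + N) x)) ∂vol =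
      ∫ x, g x ∂(enL vol Φ (E (n + N)) (u (n + N))) - v * ∫ x, g x ∂(muL vol Φ (u (n + N))) := by
    intro n g hg K hK
    rw [eg n hg, mg _ hg, ← integral_const_mul]
    have i1 : Integrable (fun x => Φ x * (E (n + N) x * g (u (n + N) x))) vol := by
      have h1 := (hN _ (Nat.le_add_left N n)).2.mul_bdd (c := K)
        (hg.comp (hu2 (n + N)).meas).aestronglyMeasurable (ae_of_all _ fun x => hK _)
      refine h1.congr (ae_of_all _ fun x => ?_)
      show Φ x * E (n + N) x * g (u (n + N) x) = Φ x * (E (n + N) x * g (u (n + N) x))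
      ring
    have i2 : Integrable (fun x => (v : ℝ) * (Φ x * g (u (n + N) x))) vol :=
      (te_bdd T (hg.comp (hu2 (n + N)).meas) fun x => hK _).1.const_mul _
    rw [← integral_sub i1 i2]
    congr 1
    funext x
    ring
  have wk : (∀ g : ℝ →ᵇ ℝ, Tendsto (fun n => ∫ x, Φ x * g (u n x) ∂vol) atTop
      (𝓝 ((∫ x, Φ x ∂vol) * ∫ t, g t ∂(gaussianReal 0 v)))) →
      ∀ g : ℝ →ᵇ ℝ, Tendsto (fun n => ∫ x, g x ∂(muL vol Φ (u (n + N)))) atTop
        (𝓝 ((∫ x, Φ x ∂vol) * ∫ x, g x ∂(gaussianReal 0 v))) := fun hA g => by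
    have := (tendsto_add_atTop_iff_nat N).2 (hA g)
    exact this.congr fun n => (mg _ g.continuous.measurable).symm
  have gI : ∀ f : ℝ → ℝ, ∫ x, f x ∂(ENNReal.ofReal (∫ x, Φ x ∂vol) • gaussianReal 0 v) =
      (∫ x, Φ x ∂vol) * ∫ x, f x ∂(gaussianReal 0 v) := by
    intro f
    rw [integral_smul_measure, ENNReal.toReal_ofReal hΦ0.le, smul_eq_mul]
  tfae_have 1 → 2 := by
    rintro ⟨hA, hA2⟩
    refine ⟨fun δ hδ => ?_, hA2⟩
    have f1 : IsFiniteMeasure (ENNReal.ofReal (∫ x, Φ x ∂vol) • gaussianReal 0 v) :=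
      Measure.smul_finite _ ENNReal.ofReal_ne_top
    have f2 := H.fμ
    have h1 := tv_all (μ := fun n => muL vol Φ (u (n + N)))
      (ν := ENNReal.ofReal (∫ x, Φ x ∂vol) • gaussianReal 0 v) H.osc
      (fun g => by rw [gI]; exact wk hA g)
      (by rw [Measure.smul_apply, gaussianReal_absolutelyContinuous 0 hv Real.volume_singleton,
        smul_zero]) hδ
    rw [← Filter.map_add_atTop_eq_nat N, eventually_map]
    refine h1.mono fun n hn g hg hg1 => ?_
    rw [← mg _ hg, ← gI]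
    exact hn g hg hg1
  tfae_have 2 → 1 := by
    rintro ⟨hT, hA2⟩
    refine ⟨fun g => ?_, hA2⟩
    rw [Metric.tendsto_atTop]
    intro ε hε
    obtain ⟨N', hN'⟩ := eventually_atTop.1 (hT (ε / (2 * (‖g‖ + 1))) (by positivity))
    refine ⟨N', fun n hn => ?_⟩
    have G0 : 0 < ‖g‖ + 1 := by positivity
    have h1 := hN' n hn (fun x => (‖g‖ + 1)⁻¹ * g x) (g.continuous.measurable.const_mul _)
      (fun x => by
        rw [abs_mul, abs_of_pos (inv_pos.2 G0), inv_mul_le_iff₀ G0, mul_one]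
        exact (g.norm_coe_le_norm x).trans (by linarith))
    have e1 : ∀ x, Φ x * ((‖g‖ + 1)⁻¹ * g (u n x)) = (‖g‖ + 1)⁻¹ * (Φ x * g (u n x)) :=
      fun x => by ring
    simp only [e1] at h1
    rw [integral_const_mul, integral_const_mul, mul_left_comm, ← mul_sub, abs_mul,
      abs_of_pos (inv_pos.2 G0), inv_mul_le_iff₀ G0] at h1
    rw [Real.dist_eq]
    refine lt_of_le_of_lt h1 ?_
    have : (‖g‖ + 1) * (ε / (2 * (‖g‖ + 1))) = ε / 2 := by field_simp
    rw [this]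
    linarith
  tfae_have 1 → 4 := by
    rintro ⟨hA, hA2⟩ δ hδ
    have h1 := wk hA
    have h2 : Tendsto (fun n => ∫ x, x ^ 2 ∂(muL vol Φ (u (n + N)))) atTop
        (𝓝 (v * ∫ x, Φ x ∂vol)) := by
      have := (tendsto_add_atTop_iff_nat N).2 hA2
      exact this.congr fun n => (mg _ msq).symm
    have h3 := H.AC hv h1 h2 hδ
    rw [← Filter.map_add_atTop_eq_nat N, eventually_map]
    refine h3.mono fun n hn g hg hg1 => ?_
    rw [dg n hg 1 hg1]
    exact hn g hg hg1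
  tfae_have 4 → 3 := by
    intro h3 g
    rw [Metric.tendsto_atTop]
    intro ε hε
    obtain ⟨N', hN'⟩ := eventually_atTop.1 (h3 (ε / (2 * (‖g‖ + 1))) (by positivity))
    refine ⟨N', fun n hn => ?_⟩
    have G0 : 0 < ‖g‖ + 1 := by positivity
    have h1 := hN' n hn (fun x => (‖g‖ + 1)⁻¹ * g x) (g.continuous.measurable.const_mul _)
      (fun x => by
        rw [abs_mul, abs_of_pos (inv_pos.2 G0), inv_mul_le_iff₀ G0, mul_one]
        exact (g.norm_coe_le_norm x).trans (by linarith))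
    have e1 : ∀ x, Φ x * ((E n x - v) * ((‖g‖ + 1)⁻¹ * g (u n x))) =
        (‖g‖ + 1)⁻¹ * (Φ x * ((E n x - v) * g (u n x))) := fun x => by ring
    simp only [e1] at h1
    rw [integral_const_mul, abs_mul, abs_of_pos (inv_pos.2 G0), inv_mul_le_iff₀ G0] at h1
    rw [Real.dist_eq, sub_zero]
    refine lt_of_le_of_lt h1 ?_
    have : (‖g‖ + 1) * (ε / (2 * (‖g‖ + 1))) = ε / 2 := by field_simp
    rw [this]
    linarith
  tfae_have 3 → 1 := by
    intro h2
    have hB : ∀ g : ℝ →ᵇ ℝ, Tendsto (fun n => ∫ x, g x ∂(enL vol Φ (E (n + N)) (u (n + N))) -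
        v * ∫ x, g x ∂(muL vol Φ (u (n + N)))) atTop (𝓝 0) := fun g => by
      have := (tendsto_add_atTop_iff_nat N).2 (h2 g)
      exact this.congr fun n => dg n g.continuous.measurable ‖g‖ fun x => g.norm_coe_le_norm x
    obtain ⟨a1, a2⟩ := H.BA hB
    refine ⟨fun g => (tendsto_add_atTop_iff_nat N).1 ?_, (tendsto_add_atTop_iff_nat N).1 ?_⟩
    · exact (a1 g).congr fun n => mg _ g.continuous.measurable
    · exact a2.congr fun n => mg _ msq
  tfae_finish

end

end Pool.Agent.Results.MP_a52643_an.EnergyDecorrelation
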