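import Pool.Agent.N252.LL.Z

/-!
# Value distribution of eigenfunctions: the laws of first jets (MP_a52643_an)

`X` is a surface with charts of isothermal coordinates, `vol` its area measure.
-/

set_option autoImplicit false
open MeasureTheory Filter Topology Complex
open scoped ContDiff ENNReal NNReal BoundedContinuousFunction

namespace Pool.Agent.Results.MP_a52643_an.FirstJets

noncomputable section

/-- the Laplacian `∂x² + ∂y²` -/
def lapl (f : ℂ → ℝ) (z : ℂ) : ℝ :=
  fderiv ℝ (fun w => fderiv ℝ f w 1) z 1 + fderiv ℝ (fun w => fderiv ℝ f w I) z I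

/-- the square of the Euclidean gradient -/
def gradSq (f : ℂ → ℝ) (z : ℂ) : ℝ := fderiv ℝ f z 1 ^ 2 + fderiv ℝ f z I ^ 2

/-- A chart of isothermal coordinates on a surface `X` with area measure `vol`: `c` is a
homeomorphism of the open set `c.source ⊆ X` onto the open set `c.target ⊆ ℂ`, the metric is
`ρ |dz|²` with `ρ` smooth and positive, and `vol` is `ρ dx dy`. -/
structure Chart (X : Type*) [TopologicalSpace X] [MeasurableSpace X] (vol : Measure X) where
  c : OpenPartialHomeomorph X ℂ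
  ρ : ℂ → ℝ
  smooth : ContDiffOn ℝ ∞ ρ c.target
  pos : ∀ z ∈ c.target, 0 < ρ z
  area : ∀ A : Set X, MeasurableSet A → A ⊆ c.source →
    vol A = ∫⁻ z in c '' A, ENNReal.ofReal (ρ z)

variable {X : Type*} [TopologicalSpace X] [MeasurableSpace X] {vol : Measure X}

/-- `u` is a measurable function on `X` which is smooth in the charts and satisfies
`Δ u = - lam u` there, where `Δ = ρ⁻¹ (∂x² + ∂y²)` -/
def IsEigenfunction (A : ℕ → Chart X vol) (lam : ℝ) (u : X → ℝ) : Prop :=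
  Measurable u ∧ ∀ i, ContDiffOn ℝ ∞ (u ∘ (A i).c.symm) (A i).c.target ∧
    ∀ z ∈ (A i).c.target,
      lapl (u ∘ (A i).c.symm) z / (A i).ρ z = - lam * u ((A i).c.symm z)

/-- `E` is a measurable function on `X`, equal in the charts to `|∇u|² / lam`, where
`|∇u|² = ρ⁻¹ ((∂x u)² + (∂y u)²)` is the square of the gradient for the metric of the surface -/
def IsEnergyDensity (A : ℕ → Chart X vol) (lam : ℝ) (u E : X → ℝ) : Prop :=
  Measurable E ∧ ∀ i, ∀ z ∈ (A i).c.target,
    E ((A i).c.symm z) = gradSq (u ∘ (A i).c.symm) z / (A i).ρ z / lam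

/-- `Φ` is a finite sum of nonnegative functions, each smooth with compact support in a chart. On a
closed surface the function `Φ = 1` is such a sum, by a partition of unity. -/
def IsTestFunction (A : ℕ → Chart X vol) (Φ : X → ℝ) : Prop :=
  ∃ (s : Finset ℕ) (φ : ℕ → ℂ → ℝ), (∀ i ∈ s, ContDiff ℝ ∞ (φ i) ∧ HasCompactSupport (φ i) ∧
    tsupport (φ i) ⊆ (A i).c.target ∧ ∀ z, 0 ≤ φ i z) ∧
    ∀ x, Φ x = ∑ i ∈ s, (A i).c.source.indicator (fun y => φ i ((A i).c y)) x

/-- the laws of `(u n, E n)` under the measure `Φ vol` converge weakly to the probability measure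
`P` on the plane, times the integral of `Φ` -/
def JetsConverge (vol : Measure X) (Φ : X → ℝ) (u E : ℕ → X → ℝ) (P : Measure (ℝ × ℝ)) : Prop :=
  ∀ F : (ℝ × ℝ) →ᵇ ℝ, Tendsto (fun n => ∫ x, Φ x * F (u n x, E n x) ∂vol) atTop
    (𝓝 ((∫ x, Φ x ∂vol) * ∫ p, F p ∂P))

open Pool.Agent.N252.TV Pool.Agent.N252.LL in
/-- **Laws of first jets.** Let `u n` be eigenfunctions, bounded in `L²`, with eigenvalues `lam n`
tending to infinity, on a surface of finite area, let `E n = |∇ u n|² / lam n` and let `Φ` be a test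
function with positive integral.
(1) Along a subsequence the laws of `(u n, E n)` under `Φ vol` converge weakly to a probability
measure on the plane.
(2) If they converge weakly to `P`, then `P` gives no mass to `(N × ℝ) ∖ {(0, 0)}` for every null
set `N` of the line, and for every continuous function `w` with `w(e) / e → 0` as `e → ∞`, and with
`w 0 = 0` or `P {(0, 0)} = 0`, the integrals of `w(E n) g(u n)` against `Φ vol` converge to the
integral of `w(e) g(x)` against `P(dx, de)`, times the integral of `Φ`, uniformly over all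
measurable `g` with `|g| ≤ 1`. -/
theorem result {X : Type*} [TopologicalSpace X] [MeasurableSpace X] [BorelSpace X]
    (vol : Measure X) [IsFiniteMeasure vol] (A : ℕ → Chart X vol) (lam : ℕ → ℝ)
    (hlam : Tendsto lam atTop atTop) (u E : ℕ → X → ℝ)
    (hu : ∀ n, IsEigenfunction A (lam n) (u n)) (hE : ∀ n, IsEnergyDensity A (lam n) (u n) (E n))
    (M : ℝ) (hM : ∀ n, MemLp (u n) 2 vol ∧ ∫ x, u n x ^ 2 ∂vol ≤ M) (Φ : X → ℝ)
    (hΦ : IsTestFunction A Φ) (hΦ0 : 0 < ∫ x, Φ x ∂vol) :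
    (∃ ψ : ℕ → ℕ, StrictMono ψ ∧ ∃ P : ProbabilityMeasure (ℝ × ℝ),
      JetsConverge vol Φ (fun n => u (ψ n)) (fun n => E (ψ n)) P) ∧
    ∀ P : ProbabilityMeasure (ℝ × ℝ), JetsConverge vol Φ u E P →
      (∀ N : Set ℝ, MeasurableSet N → volume N = 0 →
        (P : Measure (ℝ × ℝ)) {p | p.1 ∈ N ∧ p ≠ (0, 0)} = 0) ∧
      ∀ w : ℝ → ℝ, Continuous w → Tendsto (fun e => w e / e) atTop (𝓝 0) →
        (w 0 = 0 ∨ (P : Measure (ℝ × ℝ)) {(0, 0)} = 0) → ∀ δ : ℝ, 0 < δ →
        ∀ᶠ n in atTop, ∀ g : ℝ → ℝ, Measurable g → (∀ x, |g x| ≤ 1) →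
          |∫ x, Φ x * (w (E n x) * g (u n x)) ∂vol -
            (∫ x, Φ x ∂vol) * ∫ p : ℝ × ℝ, w p.2 * g p.1 ∂(P : Measure (ℝ × ℝ))| ≤ δ := by
  obtain ⟨A', hA'⟩ : ∃ A' : ℕ → IsoChart X vol, ∀ i, (A' i).c = (A i).c ∧ (A' i).ρ = (A i).ρ :=
    ⟨fun i => ⟨(A i).c, (A i).ρ, (A i).smooth, (A i).pos, (A i).area⟩, fun i => ⟨rfl, rfl⟩⟩
  have hu2 : ∀ n, IsEigen A' (lam n) (u n) := by
    intro n
    refine ⟨(hu n).1, fun i => ?_, fun i z hz => ?_⟩
    · rw [(hA' i).1]; exact ((hu n).2 i).1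
    · rw [(hA' i).1] at hz ⊢
      rw [(hA' i).2]
      have h1 := ((hu n).2 i).2 z hz
      have h2 := (A i).pos z hz
      rw [div_eq_iff h2.ne'] at h1
      have e : Pool.Agent.N252.TV.lapl (u n ∘ (A i).c.symm) z = lapl (u n ∘ (A i).c.symm) z := rfl
      rw [e, h1]
      show - lam n * u n ((A i).c.symm z) * (A i).ρ z +
        lam n * ((A i).ρ z * u n ((A i).c.symm z)) = 0
      ring
  have hE2 : ∀ n, IsEn A' (lam n) (u n) (E n) := by
    intro n
    refine ⟨(hE n).1, fun i z hz => ?_⟩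
    rw [(hA' i).1] at hz ⊢
    rw [(hA' i).2, (hE n).2 i z hz, div_div, mul_comm (lam n)]
    rfl
  obtain ⟨s, φ, hφ, hs⟩ := hΦ
  have T : IsTe A' s φ Φ := by
    refine ⟨fun i hi => ⟨(hφ i hi).1, (hφ i hi).2.1, ?_⟩, fun i hi => (hφ i hi).2.2.2, fun x => ?_⟩
    · rw [(hA' i).1]; exact (hφ i hi).2.2.1
    · rw [hs x]
      refine Finset.sum_congr rfl fun i _ => ?_
      unfold pc
      rw [(hA' i).1]
  obtain ⟨N, C, hN, H⟩ := mk_jets T hΦ0 hlam hu2 hE2 hM
  have jI : ∀ n {F : ℝ × ℝ → ℝ}, Measurable F → ∫ p, F p ∂(jet vol Φ (u n) (E n)) =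
      ∫ x, Φ x * F (u n x, E n x) ∂vol := fun n F hF =>
    jet_int T.meas T.nnΦ (hu2 n).meas (hE2 n).meas hF
  refine ⟨?_, fun P hP => ?_⟩
  · obtain ⟨ψ, hψ, Q, hQ⟩ := H.cpt
    refine ⟨fun n => ψ n + N, fun a b hab => Nat.add_lt_add_right (hψ hab) N, Q, fun F => ?_⟩
    exact (hQ F).congr fun n => jI _ F.continuous.measurable
  · have fν : IsFiniteMeasure (ENNReal.ofReal (∫ x, Φ x ∂vol) • (P : Measure (ℝ × ℝ))) :=
      Measure.smul_finite _ ENNReal.ofReal_ne_top
    have gI : ∀ f : ℝ × ℝ → ℝ, ∫ p, f p ∂(ENNReal.ofReal (∫ x, Φ x ∂vol) •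
        (P : Measure (ℝ × ℝ))) = (∫ x, Φ x ∂vol) * ∫ p, f p ∂(P : Measure (ℝ × ℝ)) := by
      intro f
      rw [integral_smul_measure, ENNReal.toReal_ofReal hΦ0.le, smul_eq_mul]
    have hw : Wk (fun n => jet vol Φ (u (n + N)) (E (n + N)))
        (ENNReal.ofReal (∫ x, Φ x ∂vol) • (P : Measure (ℝ × ℝ))) := by
      intro F
      rw [gI]
      have := (tendsto_add_atTop_iff_nat N).2 (hP F)
      exact this.congr fun n => (jI _ F.continuous.measurable).symm
    have nz : ENNReal.ofReal (∫ x, Φ x ∂vol) ≠ 0 := by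
      rw [Ne, ENNReal.ofReal_eq_zero, not_le]; exact hΦ0
    refine ⟨fun S hS hS0 => ?_, fun w cw wi h0 δ hδ => ?_⟩
    · have h1 := H.ac hw hS hS0
      rw [Measure.smul_apply, smul_eq_mul, mul_eq_zero] at h1
      exact h1.resolve_left nz
    · have tv : TVw (fun n => jet vol Φ (u (n + N)) (E (n + N)))
          (ENNReal.ofReal (∫ x, Φ x ∂vol) • (P : Measure (ℝ × ℝ))) fun p => w p.2 := by
        rcases h0 with h0 | h0
        · exact H.tv hw cw h0 wi
        · refine H.tv1 hw ?_ cw wi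
          rw [Measure.smul_apply, h0, smul_zero]
      rw [← Filter.map_add_atTop_eq_nat N, eventually_map]
      refine (tv δ hδ).mono fun n hn g hg g1 => ?_
      have h2 := hn g hg g1
      have h3 := jI (n + N) (F := fun p : ℝ × ℝ => w p.2 * g p.1)
        ((cw.measurable.comp measurable_snd).mul (hg.comp measurable_fst))
      rw [gI] at h2
      rw [← h3]
      exact h2

end

end Pool.Agent.Results.MP_a52643_an.FirstJets
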