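import Pool.Agent.N252.TV.L

/-!
# Value distribution of eigenfunctions: a uniform square root bound (MP_a52643_an)

`X` is a surface with charts of isothermal coordinates, `vol` its area measure.
-/

set_option autoImplicit false
open MeasureTheory Filter Topology Complex
open scoped ContDiff ENNReal BoundedContinuousFunction

namespace Pool.Agent.Results.MP_a52643_an.SquareRootBound

noncomputable section

/-- the Laplacian `∂x² + ∂y²` -/
def lapl (f : ℂ → ℝ) (z : ℂ) : ℝ :=
  fderiv ℝ (fun w => fderiv ℝ f w 1) z 1 + fderiv ℝ (fun w => fderiv ℝ f w I) z I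

/-- A chart of isothermal coordinates on a surface `X` with area measure `vol`: `c` is a
homeomorphism of the open set `c.source ⊆ X` onto the open set `c.target ⊆ ℂ`, the metric is
`ρ |dz|²` with `ρ` smooth and positive, and `vol` is `ρ dx dy`. -/
structure Chart (X : Type*) [TopologicalSpace X] [MeasurableSpace X] (vol : Measure X) where
  c : OpenPartialHomeomorph X ℂ
  ρ : ℂ → ℝ
  smooth : ContDiffOn ℝ ∞ ρ c.target
  pos : ∀ z ∈ c.target, 0 < ρ z
  area : ∀ A : Set X, MeasurableSet A → A ⊆ c.source →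
    vol A = ∫⁻ z in c '' A, ENNReal.ofReal (ρ z)

variable {X : Type*} [TopologicalSpace X] [MeasurableSpace X] {vol : Measure X}

/-- `u` is a measurable function on `X` which is smooth in the charts and satisfies
`Δ u = - lam u` there, where `Δ = ρ⁻¹ (∂x² + ∂y²)` -/
def IsEigenfunction (A : ℕ → Chart X vol) (lam : ℝ) (u : X → ℝ) : Prop :=
  Measurable u ∧ ∀ i, ContDiffOn ℝ ∞ (u ∘ (A i).c.symm) (A i).c.target ∧
    ∀ z ∈ (A i).c.target,
      lapl (u ∘ (A i).c.symm) z / (A i).ρ z = - lam * u ((A i).c.symm z)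

/-- weak convergence `μ n → ν` -/
def Weakly (μ : ℕ → Measure ℝ) (ν : Measure ℝ) : Prop :=
  ∀ g : ℝ →ᵇ ℝ, Tendsto (fun n => ∫ x, g x ∂(μ n)) atTop (𝓝 (∫ x, g x ∂ν))

open Pool.Agent.N252.TV in
/-- **The square root bound.** Let `u n` be eigenfunctions, bounded in `L²`, with eigenvalues
tending to infinity, on a surface of finite area, and let `K` be a compact set covered by charts
(for instance `K = X` if `X` is closed). There is a constant `D` such that, for all large `n` and
all Borel sets `B ⊆ ℝ` of finite length `|B|`, the integral of `(u n)² / (1 + (u n)²)` over the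
part of `K` where the value of `u n` is in `B` is at most `D |B|^{1/2}`; and the same bound holds
for every weak limit of laws of the `u n` on `K`. -/
theorem result {X : Type*} [TopologicalSpace X] [T2Space X] [MeasurableSpace X] [BorelSpace X]
    (vol : Measure X) [IsFiniteMeasure vol] (A : ℕ → Chart X vol) (lam : ℕ → ℝ)
    (hlam : Tendsto lam atTop atTop) (u : ℕ → X → ℝ)
    (hu : ∀ n, IsEigenfunction A (lam n) (u n)) (M : ℝ)
    (hM : ∀ n, MemLp (u n) 2 vol ∧ ∫ x, u n x ^ 2 ∂vol ≤ M) (K : Set X) (hK : IsCompact K)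
    (hKA : K ⊆ ⋃ i, (A i).c.source) :
    ∃ D : ℝ, (∀ᶠ n in atTop, ∀ B : Set ℝ, MeasurableSet B → volume B ≠ ⊤ →
      ∫ x in K ∩ u n ⁻¹' B, u n x ^ 2 / (1 + u n x ^ 2) ∂vol ≤ D * √(volume.real B)) ∧
      ∀ (σ : ℕ → ℕ) (ν : Measure ℝ), StrictMono σ → IsFiniteMeasure ν →
        Weakly (fun n => (vol.restrict K).map (u (σ n))) ν → ∀ B : Set ℝ, MeasurableSet B →
        volume B ≠ ⊤ → ∫ t in B, t ^ 2 / (1 + t ^ 2) ∂ν ≤ D * √(volume.real B) := by
  obtain ⟨A', hA'⟩ : ∃ A' : ℕ → IsoChart X vol, ∀ i, (A' i).c = (A i).c ∧ (A' i).ρ = (A i).ρ :=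
    ⟨fun i => ⟨(A i).c, (A i).ρ, (A i).smooth, (A i).pos, (A i).area⟩, fun i => ⟨rfl, rfl⟩⟩
  have hA2 : K ⊆ ⋃ i, (A' i).c.source := by
    have : ∀ i, (A' i).c.source = (A i).c.source := fun i => by rw [(hA' i).1]
    simp only [this]; exact hKA
  have hu2 : ∀ n, IsEigen A' (lam n) (u n) := by
    intro n
    refine ⟨(hu n).1, fun i => ?_, fun i z hz => ?_⟩
    · rw [(hA' i).1]; exact ((hu n).2 i).1
    · rw [(hA' i).1] at hz ⊢
      rw [(hA' i).2]
      have h1 := ((hu n).2 i).2 z hz
      have h2 := (A i).pos z hz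
      rw [div_eq_iff h2.ne'] at h1
      have e : Pool.Agent.N252.TV.lapl (u n ∘ (A i).c.symm) z = lapl (u n ∘ (A i).c.symm) z := rfl
      rw [e, h1]
      show - lam n * u n ((A i).c.symm z) * (A i).ρ z +
        lam n * ((A i).ρ z * u n ((A i).c.symm z)) = 0
      ring
  have mu : ∀ n, Measurable (u n) := fun n => (hu n).1
  obtain ⟨D, D0, hD⟩ := comp_borel hlam hu2 hM hK hA2
  refine ⟨D, hD, fun σ ν hσ hν hw B hB hB2 => ?_⟩
  refine lim_borel (μ := fun n => (vol.restrict K).map (u (σ n))) hw D0 ?_ hB hB2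
  refine (hσ.tendsto_atTop.eventually hD).mono fun n hn B hB hB2 => ?_
  have := law_set (vol := vol) (S := K) (mu (σ n)) th_sm.continuous.measurable hB
  have e : ∫ x in B, th x ∂((vol.restrict K).map (u (σ n))) =
      ∫ x in K ∩ u (σ n) ⁻¹' B, th (u (σ n) x) ∂vol := this
  rw [e]
  exact hn B hB hB2

end

end Pool.Agent.Results.MP_a52643_an.SquareRootBound
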