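import Pool.Agent.N252.TV.L

/-!
# Value distribution of eigenfunctions: convergence in total variation (MP_a52643_an)

`X` is a surface of finite area `vol`, covered up to a null set by countably many charts of
isothermal coordinates.
-/

set_option autoImplicit false
open MeasureTheory Filter Topology Complex
open scoped ContDiff ENNReal BoundedContinuousFunction

namespace Pool.Agent.Results.MP_a52643_an.TotalVariation

noncomputable section

/-- the Laplacian `∂x² + ∂y²` -/
def lapl (f : ℂ → ℝ) (z : ℂ) : ℝ :=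
  fderiv ℝ (fun w => fderiv ℝ f w 1) z 1 + fderiv ℝ (fun w => fderiv ℝ f w I) z I

/-- A chart of isothermal coordinates on a surface `X` with area measure `vol`: `c` is a
homeomorphism of the open set `c.source ⊆ X` onto the open set `c.target ⊆ ℂ`, the metric is
`ρ |dz|²` with `ρ` smooth and positive, and `vol` is `ρ dx dy`. -/
structure Chart (X : Type*) [TopologicalSpace X] [MeasurableSpace X] (vol : Measure X) where
  c : OpenPartialHomeomorph X ℂ
  ρ : ℂ → ℝ
  smooth : ContDiffOn ℝ ∞ ρ c.target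
  pos : ∀ z ∈ c.target, 0 < ρ z
  area : ∀ A : Set X, MeasurableSet A → A ⊆ c.source →
    vol A = ∫⁻ z in c '' A, ENNReal.ofReal (ρ z)

variable {X : Type*} [TopologicalSpace X] [MeasurableSpace X] {vol : Measure X}

/-- `u` is a measurable function on `X` which is smooth in the charts and satisfies
`Δ u = - lam u` there, where `Δ = ρ⁻¹ (∂x² + ∂y²)` -/
def IsEigenfunction (A : ℕ → Chart X vol) (lam : ℝ) (u : X → ℝ) : Prop :=
  Measurable u ∧ ∀ i, ContDiffOn ℝ ∞ (u ∘ (A i).c.symm) (A i).c.target ∧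
    ∀ z ∈ (A i).c.target,
      lapl (u ∘ (A i).c.symm) z / (A i).ρ z = - lam * u ((A i).c.symm z)

/-- the law of `u` on `S`: the image of the normalised area measure of `S` under `u` -/
def law (vol : Measure X) (S : Set X) (u : X → ℝ) : Measure ℝ :=
  ((vol S)⁻¹ • vol.restrict S).map u

/-- weak convergence `μ n → ν` -/
def Weakly (μ : ℕ → Measure ℝ) (ν : Measure ℝ) : Prop :=
  ∀ g : ℝ →ᵇ ℝ, Tendsto (fun n => ∫ x, g x ∂(μ n)) atTop (𝓝 (∫ x, g x ∂ν))

/-- `μ n → ν` in total variation on `E`: uniform convergence of the integrals of all measurable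
functions `g` with `|g| ≤ 1` which vanish outside `E` -/
def InTotalVariation (μ : ℕ → Measure ℝ) (ν : Measure ℝ) (E : Set ℝ) : Prop :=
  ∀ δ : ℝ, 0 < δ → ∀ᶠ n in atTop, ∀ g : ℝ → ℝ, Measurable g → (∀ x, |g x| ≤ 1) →
    (∀ x, x ∉ E → g x = 0) → |∫ x, g x ∂(μ n) - ∫ x, g x ∂ν| ≤ δ

open Pool.Agent.N252.TV in
/-- **Total variation.** Let `u n` be eigenfunctions, bounded in `L²`, with eigenvalues tending to
infinity, on a surface of finite area, and let `S` be a measurable set of positive area.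
(1) Every subsequence of the laws of the `u n` on `S` has a further subsequence which converges
weakly to a probability measure, and in total variation on `{|x| ≥ b}` for all `b > 0`.
(2) For every probability measure `ν` with `ν {0} = 0`, weak convergence of the laws to `ν` is
equivalent to convergence in total variation. -/
theorem result {X : Type*} [TopologicalSpace X] [MeasurableSpace X] [BorelSpace X]
    (vol : Measure X) [IsFiniteMeasure vol] (A : ℕ → Chart X vol)
    (hA : vol (⋃ i, (A i).c.source)ᶜ = 0) (lam : ℕ → ℝ) (hlam : Tendsto lam atTop atTop)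
    (u : ℕ → X → ℝ) (hu : ∀ n, IsEigenfunction A (lam n) (u n)) (M : ℝ)
    (hM : ∀ n, MemLp (u n) 2 vol ∧ ∫ x, u n x ^ 2 ∂vol ≤ M) (S : Set X) (hS : MeasurableSet S)
    (hS0 : vol S ≠ 0) :
    (∀ σ : ℕ → ℕ, StrictMono σ → ∃ τ : ℕ → ℕ, StrictMono τ ∧ ∃ ν : Measure ℝ,
      IsProbabilityMeasure ν ∧ Weakly (fun n => law vol S (u (σ (τ n)))) ν ∧
      ∀ b : ℝ, 0 < b → InTotalVariation (fun n => law vol S (u (σ (τ n)))) ν {x | b ≤ |x|}) ∧
    ∀ ν : Measure ℝ, IsProbabilityMeasure ν → ν {0} = 0 →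
      (Weakly (fun n => law vol S (u n)) ν ↔
        InTotalVariation (fun n => law vol S (u n)) ν Set.univ) := by
  obtain ⟨A', hA'⟩ : ∃ A' : ℕ → IsoChart X vol, ∀ i, (A' i).c = (A i).c ∧ (A' i).ρ = (A i).ρ :=
    ⟨fun i => ⟨(A i).c, (A i).ρ, (A i).smooth, (A i).pos, (A i).area⟩, fun i => ⟨rfl, rfl⟩⟩
  have hA2 : vol (⋃ i, (A' i).c.source)ᶜ = 0 := by
    have : ∀ i, (A' i).c.source = (A i).c.source := fun i => by rw [(hA' i).1]
    simp only [this]; exact hA
  have hu2 : ∀ n, IsEigen A' (lam n) (u n) := by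
    intro n
    refine ⟨(hu n).1, fun i => ?_, fun i z hz => ?_⟩
    · rw [(hA' i).1]; exact ((hu n).2 i).1
    · rw [(hA' i).1] at hz ⊢
      rw [(hA' i).2]
      have h1 := ((hu n).2 i).2 z hz
      have h2 := (A i).pos z hz
      rw [div_eq_iff h2.ne'] at h1
      have e : Pool.Agent.N252.TV.lapl (u n ∘ (A i).c.symm) z = lapl (u n ∘ (A i).c.symm) z := rfl
      rw [e, h1]
      show - lam n * u n ((A i).c.symm z) * (A i).ρ z +
        lam n * ((A i).ρ z * u n ((A i).c.symm z)) = 0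
      ring
  have mu : ∀ n, Measurable (u n) := fun n => (hu n).1
  obtain ⟨V, hV⟩ : ∃ V, V = (vol S).toReal := ⟨_, rfl⟩
  have V0 : 0 < V := by rw [hV]; exact ENNReal.toReal_pos hS0 (measure_ne_top _ _)
  have eL : ∀ n, law vol S (u n) = (vol S)⁻¹ • Pool.Agent.N252.TV.law vol S (u n) := fun n =>
    Measure.map_smul _ _ _
  have eI : ∀ n (g : ℝ → ℝ), ∫ x, g x ∂(law vol S (u n)) =
      V⁻¹ * ∫ x, g x ∂(Pool.Agent.N252.TV.law vol S (u n)) := by
    intro n g
    rw [eL, integral_smul_measure, ENNReal.toReal_inv, ← hV, smul_eq_mul]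
  have pL : ∀ n, IsProbabilityMeasure (law vol S (u n)) := by
    intro n
    constructor
    rw [law, Measure.map_apply (mu n) MeasurableSet.univ, Set.preimage_univ, Measure.smul_apply,
      Measure.restrict_apply_univ, smul_eq_mul, ENNReal.inv_mul_cancel hS0 (measure_ne_top _ _)]
  have hosc0 := osc_of_pa mu (pa_all hA2 hlam hu2 hM hS)
  have hosc : ∀ δ : ℝ, 0 < δ → ∃ ε : ℝ, 0 < ε ∧ ∀ᶠ n in atTop, Osc (law vol S (u n)) ε δ := by
    intro δ hδ
    obtain ⟨ε, hε, h1⟩ := hosc0 (V * δ) (by positivity)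
    refine ⟨ε, hε, h1.mono fun n hn f sf kf bf => ?_⟩
    rw [eI, abs_mul, abs_of_pos (inv_pos.2 V0), inv_mul_le_iff₀ V0]
    exact hn f sf kf bf
  have hsub : ∀ ψ : ℕ → ℕ, StrictMono ψ → ∀ δ : ℝ, 0 < δ → ∃ ε : ℝ, 0 < ε ∧
      ∀ᶠ n in atTop, Osc (law vol S (u (ψ n))) ε δ := by
    intro ψ hψ δ hδ
    obtain ⟨ε, hε, h1⟩ := hosc δ hδ
    exact ⟨ε, hε, hψ.tendsto_atTop.eventually h1⟩
  have msq : Measurable (fun x : ℝ => x ^ 2) := measurable_id.pow_const 2
  have sq : ∀ n, Integrable (fun x => x ^ 2) (law vol S (u n)) ∧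
      ∫ x, x ^ 2 ∂(law vol S (u n)) ≤ V⁻¹ * M := by
    intro n
    have i1 : Integrable (fun x => u n x ^ 2) vol := (hM n).1.integrable_sq
    refine ⟨?_, ?_⟩
    · rw [law, integrable_map_measure msq.aestronglyMeasurable (mu n).aemeasurable]
      exact Integrable.smul_measure i1.integrableOn (ENNReal.inv_ne_top.2 hS0)
    · rw [eI, law_int (mu n) msq]
      refine mul_le_mul_of_nonneg_left (le_trans ?_ (hM n).2) (inv_pos.2 V0).le
      exact setIntegral_le_integral i1 (ae_of_all _ fun x => sq_nonneg _)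
  refine ⟨fun σ hσ => ?_, fun ν hν ν0 => ⟨fun hw => ?_, fun ht g => ?_⟩⟩
  · obtain ⟨τ, hτ, Q, hQ⟩ := prok (fun n => ⟨law vol S (u (σ n)), pL (σ n)⟩) (M := V⁻¹ * M)
      fun n => sq (σ n)
    have hw : Weakly (fun n => law vol S (u (σ (τ n)))) (Q : Measure ℝ) :=
      ProbabilityMeasure.tendsto_iff_forall_integral_tendsto.1 hQ
    refine ⟨τ, hτ, Q, inferInstance, hw, fun b hb δ hδ => ?_⟩
    have := tv_far (μ := fun n => law vol S (u (σ (τ n)))) (hsub (σ ∘ τ) (hσ.comp hτ)) hw hb hδ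
    refine this.mono fun n hn g mg g1 g0 => hn g mg g1 fun x hx => g0 x ?_
    exact fun h => absurd hx (not_lt.2 h)
  · intro δ hδ
    exact (tv_all (μ := fun n => law vol S (u n)) hosc hw ν0 hδ).mono
      fun n hn g mg g1 _ => hn g mg g1
  · rw [Metric.tendsto_atTop]
    intro ε hε
    obtain ⟨N, hN⟩ := eventually_atTop.1 (ht (ε / (2 * (‖g‖ + 1))) (by positivity))
    refine ⟨N, fun n hn => ?_⟩
    have G0 : 0 < ‖g‖ + 1 := by positivity
    have h1 := hN n hn (fun x => (‖g‖ + 1)⁻¹ * g x) (g.continuous.measurable.const_mul _)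
      (fun x => by
        rw [abs_mul, abs_of_pos (inv_pos.2 G0), inv_mul_le_iff₀ G0, mul_one]
        exact (g.norm_coe_le_norm x).trans (by linarith))
      (fun x hx => absurd (Set.mem_univ x) hx)
    rw [integral_const_mul, integral_const_mul, ← mul_sub, abs_mul, abs_of_pos (inv_pos.2 G0),
      inv_mul_le_iff₀ G0] at h1
    rw [Real.dist_eq]
    refine lt_of_le_of_lt h1 ?_
    have : (‖g‖ + 1) * (ε / (2 * (‖g‖ + 1))) = ε / 2 := by field_simp
    rw [this]
    linarith

end

end Pool.Agent.Results.MP_a52643_an.TotalVariation
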